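import Pool.Agent.Y752.QF.Stm2
import Pool.Agent.H510R2.Div

set_option autoImplicit false

/-! Project QF: the average of `χ(m)` over the real primitive characters of given parity and conductor
at most `X` (AR). -/

namespace Pool.Agent.Y832.QF

open Pool.Agent.Y752.QF
open Pool.Agent.H306R2.RG (FD F8 F4 F1 cf jo)
open Pool.Agent.H306R2.RZ (js)

noncomputable section

/-- classes mod 8 of the four families -/
def cls (b : Bool) (i : Fin 4) : Finset ℕ :=
  ![{1, 3, 5, 7}, if b then {1, 5} else {3, 7}, if b then {7} else {1}, if b then {3} else {5}] i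

lemma cls_sub (b : Bool) (i : Fin 4) : ∀ a ∈ cls b i, a < 8 ∧ a % 2 = 1 := by
  cases b <;> fin_cases i <;> simp [cls]

lemma A_cls {b : Bool} {i : Fin 4} {d : ℕ} (h : (fam b i).A d) : d % 8 ∈ cls b i := by
  cases b <;> fin_cases i <;>
    simp only [fam, F8, F4, F1, cls, Nat.odd_iff, Finset.mem_insert, Finset.mem_singleton,
      Bool.false_eq_true, if_false, if_true, Fin.mk_zero, Fin.zero_eta, Fin.mk_one,
      Matrix.cons_val_zero, Matrix.cons_val_one, Fin.reduceFinMk, Matrix.cons_val] at h ⊢ <;>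
    omega

lemma cls_A {b : Bool} {i : Fin 4} {d : ℕ} (h : d % 8 ∈ cls b i) (hs : Squarefree d) (h1 : d ≠ 1) :
    (fam b i).A d := by
  have hd0 : d ≠ 0 := hs.ne_zero
  have hsq : ¬ IsSquare ((d : ℕ) : ℤ) := by
    rintro ⟨k, hk⟩
    have h2 : d = k.natAbs * k.natAbs := by
      have := congrArg Int.natAbs hk
      rwa [Int.natAbs_mul, Int.natAbs_natCast] at this
    have h3 := hs k.natAbs (Dvd.intro 1 (by rw [mul_one, ← h2]))
    rw [Nat.isUnit_iff] at h3
    rw [h3] at h2
    exact h1 h2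
  have hsq' : ¬ IsSquare (-((d : ℕ) : ℤ)) := by
    rintro ⟨k, hk⟩
    have : 0 ≤ k * k := mul_self_nonneg k
    omega
  cases b <;> fin_cases i <;>
    simp only [fam, F8, F4, F1, cls, Nat.odd_iff, Finset.mem_insert, Finset.mem_singleton,
      Bool.false_eq_true, if_false, if_true, Fin.mk_zero, Fin.zero_eta, Fin.mk_one,
      Matrix.cons_val_zero, Matrix.cons_val_one, Fin.reduceFinMk, Matrix.cons_val, one_mul,
      neg_mul] at h ⊢ <;>
    first
      | omega
      | exact ⟨by omega, hsq⟩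
      | exact ⟨by omega, hsq'⟩

lemma abs_js_le (k : ℤ) (n : ℕ) : |js k n| ≤ 1 := by
  unfold js
  rcases jacobiSym.trichotomy k n with h | h | h <;> rw [h] <;> simp

lemma js_mul (a b : ℤ) (n : ℕ) : js (a * b) n = js a n * js b n := by
  unfold js
  rw [jacobiSym.mul_left]
  push_cast
  ring

open Classical in
/-- sum over one class -/
def NN (D n a : ℕ) : ℝ :=
  ∑ d ∈ (Finset.Icc 1 D).filter (fun d => Squarefree d ∧ d % 8 = a), js d n

open Classical in
lemma sum_cls (D n : ℕ) (s : Finset ℕ) : ∑ a ∈ s, NN D n a =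
    ∑ d ∈ (Finset.Icc 1 D).filter (fun d => Squarefree d ∧ d % 8 ∈ s), js d n := by
  unfold NN
  simp only [Finset.sum_filter]
  rw [Finset.sum_comm]
  refine Finset.sum_congr rfl fun d _ => ?_
  by_cases h : Squarefree d
  · simp only [h, true_and]
    by_cases h2 : d % 8 ∈ s
    · rw [if_pos h2, Finset.sum_ite_eq, if_pos h2]
    · rw [if_neg h2, Finset.sum_ite_eq, if_neg h2]
  · simp [h]

open Classical in
/-- one family: up to an error of at most one, the sum is a sum over classes -/
lemma one_fam (b : Bool) (i : Fin 4) (D n : ℕ) (hn : Odd n) :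
    |∑ d ∈ (Finset.Icc 1 D).filter (fun d => (fam b i).A d ∧ Squarefree d), jo (fam b i) d n -
      js (fam b i).e n * ∑ a ∈ cls b i, NN D n a| ≤ 1 := by
  have e0 : ∀ d : ℕ, jo (fam b i) d n = js (fam b i).e n * js d n := by
    intro d
    unfold jo
    rw [if_pos hn, js_mul]
  simp only [e0]
  rw [← Finset.mul_sum, ← mul_sub, abs_mul, sum_cls]
  have h1 := abs_js_le (fam b i).e n
  have h2 : |∑ d ∈ (Finset.Icc 1 D).filter (fun d => (fam b i).A d ∧ Squarefree d), js d n -
      ∑ d ∈ (Finset.Icc 1 D).filter (fun d => Squarefree d ∧ d % 8 ∈ cls b i), js d n| ≤ 1 := by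
    have hsub : (Finset.Icc 1 D).filter (fun d => (fam b i).A d ∧ Squarefree d) ⊆
        (Finset.Icc 1 D).filter (fun d => Squarefree d ∧ d % 8 ∈ cls b i) := by
      intro d hd
      rw [Finset.mem_filter] at hd ⊢
      exact ⟨hd.1, hd.2.2, A_cls hd.2.1⟩
    rw [← Finset.sum_sdiff hsub]
    have h3 : (Finset.Icc 1 D).filter (fun d => Squarefree d ∧ d % 8 ∈ cls b i) \
        (Finset.Icc 1 D).filter (fun d => (fam b i).A d ∧ Squarefree d) ⊆ {1} := by
      intro d hd
      rw [Finset.mem_sdiff, Finset.mem_filter, Finset.mem_filter] at hd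
      rw [Finset.mem_singleton]
      by_contra hne
      exact hd.2 ⟨hd.1.1, cls_A hd.1.2.2 hd.1.2.1 hne, hd.1.2.1⟩
    set U := (Finset.Icc 1 D).filter (fun d => Squarefree d ∧ d % 8 ∈ cls b i) \
        (Finset.Icc 1 D).filter (fun d => (fam b i).A d ∧ Squarefree d) with hU
    have h4 : |∑ d ∈ U, js d n| ≤ 1 := by
      calc |∑ d ∈ U, js d n| ≤ ∑ d ∈ U, |js d n| := Finset.abs_sum_le_sum_abs _ _
        _ ≤ ∑ d ∈ U, (1 : ℝ) := Finset.sum_le_sum fun d _ => abs_js_le _ _
        _ = (U.card : ℝ) := by simp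
        _ ≤ (({1} : Finset ℕ).card : ℝ) := by exact_mod_cast Finset.card_le_card h3
        _ = 1 := by simp
    rw [sub_add_cancel_right, abs_neg]
    exact h4
  calc _ ≤ 1 * 1 := mul_le_mul h1 h2 (abs_nonneg _) zero_le_one
    _ = 1 := one_mul 1

lemma eta_le (b : Bool) (i : Fin 4) (v : ℕ) : |(fam b i).η ^ v| ≤ 1 := by
  rw [abs_pow]
  refine pow_le_one₀ (abs_nonneg _) ?_
  cases b <;> fin_cases i <;> simp [fam, F8, F4, F1]

lemma cls_card (b : Bool) (i : Fin 4) : (cls b i).card ≤ 4 := by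
  cases b <;> fin_cases i <;> simp [cls]

lemma r_pos (b : Bool) (i : Fin 4) : 1 ≤ (fam b i).r := by
  cases b <;> fin_cases i <;> simp [fam, F8, F4, F1]

open Classical in
/-- the whole sum as a real number -/
def RR (b : Bool) (X m : ℕ) : ℝ := ∑ i : Fin 4,
    ∑ d ∈ (Finset.Icc 1 (X / (fam b i).r)).filter (fun d => (fam b i).A d ∧ Squarefree d),
      cf (fam b i) d m

/-- the whole sum and the sums over the classes -/
lemma RR_cls (b : Bool) (X v n : ℕ) (hn : Odd n) :
    |RR b X (2 ^ v * n) - ∑ i : Fin 4, (fam b i).η ^ v * (js (fam b i).e n *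
      ∑ a ∈ cls b i, NN (X / (fam b i).r) n a)| ≤ 4 := by
  classical
  have hn0 : n ≠ 0 := hn.pos.ne'
  have hv : (2 ^ v * n).factorization 2 = v := by
    rw [Nat.factorization_mul (by positivity) hn0, Finsupp.add_apply,
      Nat.Prime.factorization_pow Nat.prime_two]
    rw [Nat.factorization_eq_zero_of_not_dvd (n := n) (by
      intro h; exact (Nat.not_even_iff_odd.2 hn) (even_iff_two_dvd.2 h))]
    simp
  have e1 : ∀ (i : Fin 4) (d : ℕ), cf (fam b i) d (2 ^ v * n) =
      (fam b i).η ^ v * jo (fam b i) d n := by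
    intro i d
    unfold cf
    rw [hv, Nat.mul_div_cancel_left n (by positivity)]
  unfold RR
  simp only [e1, ← Finset.mul_sum]
  rw [← Finset.sum_sub_distrib]
  calc _ ≤ ∑ i : Fin 4, |(fam b i).η ^ v *
        ∑ d ∈ (Finset.Icc 1 (X / (fam b i).r)).filter (fun d => (fam b i).A d ∧ Squarefree d),
          jo (fam b i) d n - (fam b i).η ^ v * (js (fam b i).e n *
      ∑ a ∈ cls b i, NN (X / (fam b i).r) n a)| := Finset.abs_sum_le_sum_abs _ _
    _ ≤ ∑ i : Fin 4, (1 : ℝ) := by
        refine Finset.sum_le_sum fun i _ => ?_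
        rw [← mul_sub, abs_mul]
        calc _ ≤ 1 * 1 := mul_le_mul (eta_le b i v) (one_fam b i _ n hn) (abs_nonneg _) zero_le_one
          _ = 1 := one_mul 1
    _ = 4 := by simp

lemma isSquare_iff (v n : ℕ) (hn : Odd n) : IsSquare (2 ^ v * n) ↔ Even v ∧ IsSquare n := by
  have hn0 : n ≠ 0 := hn.pos.ne'
  have hnd : ¬ 2 ∣ n := fun h => (Nat.not_even_iff_odd.2 hn) (even_iff_two_dvd.2 h)
  have hv : (2 ^ v * n).factorization 2 = v := by
    rw [Nat.factorization_mul (by positivity) hn0, Finsupp.add_apply,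
      Nat.Prime.factorization_pow Nat.prime_two]
    rw [Nat.factorization_eq_zero_of_not_dvd (n := n) hnd]
    simp
  constructor
  · rintro ⟨t, ht⟩
    have ht0 : t ≠ 0 := by
      rintro rfl
      have : 0 < 2 ^ v * n := by positivity
      omega
    refine ⟨⟨t.factorization 2, ?_⟩, ⟨t / 2 ^ t.factorization 2, ?_⟩⟩
    · rw [← hv, ht, Nat.factorization_mul ht0 ht0]
      rfl
    · have h1 := Nat.ordCompl_mul t t 2
      rw [← ht, hv, Nat.mul_div_cancel_left n (by positivity)] at h1
      exact h1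
  · rintro ⟨⟨w, rfl⟩, ⟨s, rfl⟩⟩
    exact ⟨2 ^ w * s, by ring⟩

/-- not a square -/
lemma ns_case {C ε : ℝ} (hC : 0 < C) (hε : 0 < ε)
    (hN : ∀ D n a : ℕ, Odd n → ¬ IsSquare n → a % 2 = 1 →
      |NN D n a| ≤ C * Real.sqrt D * (n : ℝ) ^ (1 / 4 + ε)) (b : Bool) (X v n : ℕ) (hX : 1 ≤ X)
    (hn : Odd n) (hns : ¬ IsSquare n) :
    |RR b X (2 ^ v * n)| ≤ (4 + 16 * C) * Real.sqrt X * ((2 ^ v * n : ℕ) : ℝ) ^ (1 / 4 + ε) := by
  have h1 := RR_cls b X v n hn
  have hX1 : (1 : ℝ) ≤ Real.sqrt X := by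
    rw [Real.one_le_sqrt]; exact_mod_cast hX
  have hnm : (n : ℝ) ≤ ((2 ^ v * n : ℕ) : ℝ) := by
    exact_mod_cast Nat.le_mul_of_pos_left n (by positivity)
  have hn1 : (1 : ℝ) ≤ n := by exact_mod_cast hn.pos
  have hpw : (n : ℝ) ^ (1 / 4 + ε) ≤ ((2 ^ v * n : ℕ) : ℝ) ^ (1 / 4 + ε) :=
    Real.rpow_le_rpow (by positivity) hnm (by positivity)
  have hpw1 : 1 ≤ (n : ℝ) ^ (1 / 4 + ε) := Real.one_le_rpow hn1 (by positivity)
  set M := ((2 ^ v * n : ℕ) : ℝ) ^ (1 / 4 + ε) with hM
  have h2 : |∑ i : Fin 4, (fam b i).η ^ v * (js (fam b i).e n *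
      ∑ a ∈ cls b i, NN (X / (fam b i).r) n a)| ≤ 16 * C * Real.sqrt X * M := by
    calc _ ≤ ∑ i : Fin 4, |(fam b i).η ^ v * (js (fam b i).e n *
        ∑ a ∈ cls b i, NN (X / (fam b i).r) n a)| := Finset.abs_sum_le_sum_abs _ _
      _ ≤ ∑ i : Fin 4, 4 * (C * Real.sqrt X * M) := by
          refine Finset.sum_le_sum fun i _ => ?_
          rw [abs_mul, abs_mul]
          have h3 : |∑ a ∈ cls b i, NN (X / (fam b i).r) n a| ≤ 4 * (C * Real.sqrt X * M) := by
            calc _ ≤ ∑ a ∈ cls b i, |NN (X / (fam b i).r) n a| := Finset.abs_sum_le_sum_abs _ _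
              _ ≤ ∑ a ∈ cls b i, C * Real.sqrt X * M := by
                  refine Finset.sum_le_sum fun a ha => ?_
                  refine (hN _ n a hn hns (cls_sub b i a ha).2).trans ?_
                  have h4 : Real.sqrt ((X / (fam b i).r : ℕ) : ℝ) ≤ Real.sqrt X :=
                    Real.sqrt_le_sqrt (by exact_mod_cast Nat.div_le_self _ _)
                  gcongr
              _ = (cls b i).card * (C * Real.sqrt X * M) := by
                  rw [Finset.sum_const, nsmul_eq_mul]
              _ ≤ 4 * (C * Real.sqrt X * M) := by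
                  have : ((cls b i).card : ℝ) ≤ 4 := by exact_mod_cast cls_card b i
                  gcongr
          calc _ ≤ 1 * (1 * (4 * (C * Real.sqrt X * M))) := by
                refine mul_le_mul (eta_le b i v) (mul_le_mul (abs_js_le _ _) h3 (abs_nonneg _)
                  zero_le_one) (by positivity) zero_le_one
            _ = 4 * (C * Real.sqrt X * M) := by ring
      _ = 16 * C * Real.sqrt X * M := by
          rw [Finset.sum_const, Finset.card_univ, Fintype.card_fin, nsmul_eq_mul]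
          push_cast
          ring
  have h5 : (4 : ℝ) ≤ 4 * Real.sqrt X * M := by
    have : (1 : ℝ) ≤ Real.sqrt X * M := one_le_mul_of_one_le_of_one_le hX1 (hpw1.trans hpw)
    linarith
  have h6 := abs_sub_abs_le_abs_sub (RR b X (2 ^ v * n)) (∑ i : Fin 4, (fam b i).η ^ v *
    (js (fam b i).e n * ∑ a ∈ cls b i, NN (X / (fam b i).r) n a))
  nlinarith

lemma js_sq {s : ℕ} {k : ℤ} (h : k.gcd s = 1) : js k (s * s) = 1 := by
  unfold js
  by_cases hs : s = 0
  · subst hs
    simp
  haveI : NeZero s := ⟨hs⟩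
  rw [jacobiSym.mul_right, ← sq, jacobiSym.sq_one h]
  simp

lemma js_sq_ite (d s : ℕ) (hs : s ≠ 0) :
    js d (s * s) = if d.Coprime (s * s) then 1 else 0 := by
  haveI : NeZero s := ⟨hs⟩
  split_ifs with h
  · exact js_sq (by rw [Int.gcd_natCast_natCast]; exact (Nat.Coprime.coprime_mul_right_right h))
  · unfold js
    have : ¬ (Nat.gcd d s = 1) := fun h2 => h (Nat.Coprime.mul_right h2 h2)
    rw [jacobiSym.mul_right, (jacobiSym.eq_zero_iff (a := (d : ℤ)) (b := s)).2
      ⟨hs, by rw [Int.gcd_natCast_natCast]; exact this⟩]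
    simp

open Classical in
lemma NN_sq (D s a : ℕ) (hs : s ≠ 0) : NN D (s * s) a =
    (((Finset.Icc 1 D).filter fun d => Squarefree d ∧ d % 8 = a ∧ d.Coprime (s * s)).card : ℝ) := by
  unfold NN
  simp only [js_sq_ite _ s hs]
  rw [← Finset.sum_filter, Finset.filter_filter, Finset.sum_const, nsmul_eq_mul, mul_one]
  simp only [and_assoc]

lemma js_e (b : Bool) (i : Fin 4) (s : ℕ) (hs : Odd s) : js (fam b i).e (s * s) = 1 := by
  apply js_sq
  have h2 : Nat.gcd 2 s = 1 := (Nat.coprime_two_left).2 hs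
  cases b <;> fin_cases i <;>
    simp only [fam, F8, F4, F1, Bool.false_eq_true, if_false, if_true, Fin.mk_zero, Fin.zero_eta,
      Fin.mk_one, Matrix.cons_val_zero, Matrix.cons_val_one, Fin.reduceFinMk, Matrix.cons_val,
      mul_one, mul_neg] <;>
    simp [Int.gcd, h2]

lemma hw_le_one (n : ℕ) : hw n ≤ 1 := by
  unfold hw
  refine Finset.prod_le_one (fun p _ => by positivity) fun p _ => ?_
  rw [div_le_one (by positivity)]
  linarith

lemma hw_nonneg (n : ℕ) : 0 ≤ hw n := Finset.prod_nonneg fun p _ => by positivity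

lemma hw_two (v n : ℕ) (hn : Odd n) (hv : v ≠ 0) : hw (2 ^ v * n) = 2 / 3 * hw n := by
  have hn0 : n ≠ 0 := hn.pos.ne'
  have hnd : ¬ 2 ∣ n := fun h => (Nat.not_even_iff_odd.2 hn) (even_iff_two_dvd.2 h)
  have hco : Nat.Coprime (2 ^ v) n := Nat.Coprime.pow_left v ((Nat.coprime_two_left).2 hn)
  unfold hw
  rw [hco.primeFactors_mul, Nat.primeFactors_prime_pow hv Nat.prime_two, Finset.prod_union]
  · simp
    norm_num
  · rw [Finset.disjoint_singleton_left]
    intro h
    exact hnd (Nat.dvd_of_mem_primeFactors h)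

/-- main terms -/
lemma mt (b : Bool) (X v n : ℕ) (hn : Odd n) (hsq : IsSquare n) :
    ∑ i : Fin 4, (fam b i).η ^ v * ((cls b i).card * (1 / Real.pi ^ 2 * (X / (fam b i).r) * hw n)) =
      mm X (2 ^ v * n) := by
  unfold mm
  have hr : ∀ z : ℝ, ∑ i : Fin 4, (fam b i).η ^ v * ((cls b i).card *
      (1 / Real.pi ^ 2 * (X / (fam b i).r) * z)) =
      (0 ^ v + 1 + (-1) ^ v) * (1 / Real.pi ^ 2 * X * z) := by
    intro z
    rw [Fin.sum_univ_four]
    cases b <;>
      simp [fam, F8, F4, F1, cls] <;> ring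
  rw [hr]
  rcases Nat.eq_zero_or_pos v with hv | hv
  · subst hv
    rw [if_pos (by rw [pow_zero, one_mul]; exact hsq), pow_zero, pow_zero, pow_zero, one_mul]
    ring
  · rw [zero_pow hv.ne']
    by_cases he : Even v
    · rw [if_pos ((isSquare_iff v n hn).2 ⟨he, hsq⟩), he.neg_one_pow, hw_two v n hn hv.ne']
      ring
    · rw [if_neg (fun h => he ((isSquare_iff v n hn).1 h).1),
        (Nat.not_even_iff_odd.1 he).neg_one_pow]
      ring

/-- square -/
lemma sq_case {C C' ε : ℝ} (hC : 0 < C) (hC' : 0 < C') (hε : 0 < ε)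
    (hd : ∀ n : ℕ, 1 ≤ n → (n.divisors.card : ℝ) ≤ C' * (n : ℝ) ^ (1 / 4 + ε))
    (hN : ∀ D s a : ℕ, Odd s → a < 8 → a % 2 = 1 →
      |NN D (s * s) a - 1 / Real.pi ^ 2 * D * hw (s * s)| ≤
        C * (s * s).divisors.card * Real.sqrt D) (b : Bool) (X v s : ℕ) (hX : 1 ≤ X)
    (hs : Odd s) :
    |RR b X (2 ^ v * (s * s)) - mm X (2 ^ v * (s * s))| ≤
      (20 + 16 * C * C') * Real.sqrt X * ((2 ^ v * (s * s) : ℕ) : ℝ) ^ (1 / 4 + ε) := by
  have hn : Odd (s * s) := hs.mul hs
  have h1 := RR_cls b X v (s * s) hn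
  have hX1 : (1 : ℝ) ≤ Real.sqrt X := by
    rw [Real.one_le_sqrt]; exact_mod_cast hX
  have hnm : ((s * s : ℕ) : ℝ) ≤ ((2 ^ v * (s * s) : ℕ) : ℝ) := by
    exact_mod_cast Nat.le_mul_of_pos_left (s * s) (by positivity)
  have hn1 : (1 : ℝ) ≤ ((s * s : ℕ) : ℝ) := by exact_mod_cast hn.pos
  have hpw : ((s * s : ℕ) : ℝ) ^ (1 / 4 + ε) ≤ ((2 ^ v * (s * s) : ℕ) : ℝ) ^ (1 / 4 + ε) :=
    Real.rpow_le_rpow (by positivity) hnm (by positivity)
  have hpw1 : 1 ≤ ((s * s : ℕ) : ℝ) ^ (1 / 4 + ε) := Real.one_le_rpow hn1 (by positivity)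
  have hdd := (hd (s * s) hn.pos).trans (mul_le_mul_of_nonneg_left hpw hC'.le)
  set M := ((2 ^ v * (s * s) : ℕ) : ℝ) ^ (1 / 4 + ε) with hM
  have hM1 : 1 ≤ M := hpw1.trans hpw
  rw [← mt b X v (s * s) hn ⟨s, rfl⟩]
  have h2 : |∑ i : Fin 4, (fam b i).η ^ v * (js (fam b i).e (s * s) *
      ∑ a ∈ cls b i, NN (X / (fam b i).r) (s * s) a) -
      ∑ i : Fin 4, (fam b i).η ^ v * ((cls b i).card *
        (1 / Real.pi ^ 2 * (X / (fam b i).r) * hw (s * s)))| ≤
      (16 + 16 * C * C') * Real.sqrt X * M := by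
    rw [← Finset.sum_sub_distrib]
    calc _ ≤ ∑ i : Fin 4, |(fam b i).η ^ v * (js (fam b i).e (s * s) *
        ∑ a ∈ cls b i, NN (X / (fam b i).r) (s * s) a) - (fam b i).η ^ v * ((cls b i).card *
        (1 / Real.pi ^ 2 * (X / (fam b i).r) * hw (s * s)))| := Finset.abs_sum_le_sum_abs _ _
      _ ≤ ∑ i : Fin 4, 4 * (1 + C * (C' * M) * Real.sqrt X) := by
          refine Finset.sum_le_sum fun i _ => ?_
          rw [← mul_sub, abs_mul, js_e b i s hs, one_mul]
          have h3 : |∑ a ∈ cls b i, NN (X / (fam b i).r) (s * s) a - (cls b i).card *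
              (1 / Real.pi ^ 2 * (X / (fam b i).r) * hw (s * s))| ≤
              4 * (1 + C * (C' * M) * Real.sqrt X) := by
            rw [← nsmul_eq_mul, ← Finset.sum_const, ← Finset.sum_sub_distrib]
            calc _ ≤ ∑ a ∈ cls b i, |NN (X / (fam b i).r) (s * s) a -
                  1 / Real.pi ^ 2 * (X / (fam b i).r) * hw (s * s)| :=
                  Finset.abs_sum_le_sum_abs _ _
              _ ≤ ∑ a ∈ cls b i, (1 + C * (C' * M) * Real.sqrt X) := by
                  refine Finset.sum_le_sum fun a ha => ?_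
                  have h4 := hN (X / (fam b i).r) s a hs (cls_sub b i a ha).1 (cls_sub b i a ha).2
                  have h5 : |1 / Real.pi ^ 2 * ((X / (fam b i).r : ℕ) : ℝ) * hw (s * s) -
                      1 / Real.pi ^ 2 * (X / (fam b i).r) * hw (s * s)| ≤ 1 := by
                    rw [← sub_mul, ← mul_sub, abs_mul, abs_mul]
                    have h6 : |((X / (fam b i).r : ℕ) : ℝ) - X / (fam b i).r| ≤ 1 := by
                      have hr0 : (0 : ℝ) < (fam b i).r := by exact_mod_cast r_pos b i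
                      have h7 : ((X / (fam b i).r : ℕ) : ℝ) ≤ X / (fam b i).r := Nat.cast_div_le
                      have h8 : (X : ℝ) / (fam b i).r < ((X / (fam b i).r : ℕ) : ℝ) + 1 := by
                        rw [div_lt_iff₀ hr0]
                        have := Nat.lt_div_mul_add (a := X) (b := (fam b i).r) (r_pos b i)
                        have h9 : X < (X / (fam b i).r + 1) * (fam b i).r := by
                          rw [add_mul, one_mul]; exact this
                        exact_mod_cast h9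
                      rw [abs_le]
                      constructor <;> linarith
                    have h7 : |1 / Real.pi ^ 2| ≤ 1 := by
                      rw [abs_of_nonneg (by positivity), div_le_one (by positivity)]
                      nlinarith [Real.pi_gt_three]
                    have h8 : |hw (s * s)| ≤ 1 := by
                      rw [abs_of_nonneg (hw_nonneg _)]
                      exact hw_le_one _
                    calc |1 / Real.pi ^ 2| * |((X / (fam b i).r : ℕ) : ℝ) - X / (fam b i).r| *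
                          |hw (s * s)| ≤ (1 : ℝ) * 1 * 1 := by
                          refine mul_le_mul (mul_le_mul h7 h6 (abs_nonneg _) zero_le_one) h8
                            (abs_nonneg _) (by norm_num)
                      _ = 1 := by norm_num
                  have h6 : C * ((s * s).divisors.card : ℝ) *
                      Real.sqrt ((X / (fam b i).r : ℕ) : ℝ) ≤ C * (C' * M) * Real.sqrt X := by
                    have h7 : Real.sqrt ((X / (fam b i).r : ℕ) : ℝ) ≤ Real.sqrt X :=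
                      Real.sqrt_le_sqrt (by exact_mod_cast Nat.div_le_self _ _)
                    gcongr
                  calc _ ≤ |NN (X / (fam b i).r) (s * s) a -
                        1 / Real.pi ^ 2 * ((X / (fam b i).r : ℕ) : ℝ) * hw (s * s)| +
                        |1 / Real.pi ^ 2 * ((X / (fam b i).r : ℕ) : ℝ) * hw (s * s) -
                          1 / Real.pi ^ 2 * (X / (fam b i).r) * hw (s * s)| :=
                        abs_sub_le _ _ _
                    _ ≤ C * (C' * M) * Real.sqrt X + 1 := add_le_add (h4.trans h6) h5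
                    _ = 1 + C * (C' * M) * Real.sqrt X := add_comm _ _
              _ = (cls b i).card * (1 + C * (C' * M) * Real.sqrt X) := by
                  rw [Finset.sum_const, nsmul_eq_mul]
              _ ≤ 4 * (1 + C * (C' * M) * Real.sqrt X) := by
                  have : ((cls b i).card : ℝ) ≤ 4 := by exact_mod_cast cls_card b i
                  have h0 : 0 ≤ 1 + C * (C' * M) * Real.sqrt X := by positivity
                  gcongr
          calc _ ≤ 1 * (4 * (1 + C * (C' * M) * Real.sqrt X)) :=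
                mul_le_mul (eta_le b i v) h3 (abs_nonneg _) zero_le_one
            _ = _ := one_mul _
      _ = 16 + 16 * C * C' * (Real.sqrt X * M) := by
          rw [Finset.sum_const, Finset.card_univ, Fintype.card_fin, nsmul_eq_mul]
          push_cast
          ring
      _ ≤ (16 + 16 * C * C') * Real.sqrt X * M := by
          have : (1 : ℝ) ≤ Real.sqrt X * M := one_le_mul_of_one_le_of_one_le hX1 hM1
          nlinarith
  have h5 : (1 : ℝ) ≤ Real.sqrt X * M := one_le_mul_of_one_le_of_one_le hX1 hM1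
  have h6 := abs_sub_le (RR b X (2 ^ v * (s * s))) (∑ i : Fin 4, (fam b i).η ^ v *
    (js (fam b i).e (s * s) * ∑ a ∈ cls b i, NN (X / (fam b i).r) (s * s) a))
    (∑ i : Fin 4, (fam b i).η ^ v * ((cls b i).card *
        (1 / Real.pi ^ 2 * (X / (fam b i).r) * hw (s * s))))
  nlinarith

/-- AR -/
theorem AR (h1 : S_FM) (h2 : S_SQF) (h3 : S_NSQ) : S_AR := by
  intro ε hε
  obtain ⟨C2, hC2, h2⟩ := h2
  obtain ⟨C3, hC3, h3⟩ := h3 ε hε
  obtain ⟨C4, hC4, h4⟩ := Pool.Agent.H510R2.divisor_bound (1 / 4 + ε) (by positivity)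
  refine ⟨(4 + 16 * C3) + (20 + 16 * C2 * C4), by positivity, ?_⟩
  intro b X m hX hm
  have e1 : Ee b X m = ((RR b X m - mm X m : ℝ) : ℂ) := by
    unfold Ee
    rw [h1 b X m hm]
    unfold RR
    push_cast
    rfl
  rw [e1, Complex.norm_real, Real.norm_eq_abs, ← Real.sqrt_eq_rpow]
  obtain ⟨v, n, hn, rfl⟩ : ∃ v n, Odd n ∧ m = 2 ^ v * n := by
    refine ⟨m.factorization 2, m / 2 ^ m.factorization 2, ?_,
      (Nat.ordProj_mul_ordCompl_eq_self m 2).symm⟩
    rw [← Nat.not_even_iff_odd, even_iff_two_dvd]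
    exact Nat.not_dvd_ordCompl Nat.prime_two (by omega)
  have hP : 0 ≤ Real.sqrt X * ((2 ^ v * n : ℕ) : ℝ) ^ (1 / 4 + ε) := by positivity
  by_cases hsq : IsSquare n
  · obtain ⟨s, rfl⟩ := hsq
    have hs : Odd s := (Nat.odd_mul.1 hn).1
    have h5 := sq_case (b := b) (v := v) (s := s) hC2 hC4 hε h4 (fun D s a hs ha1 ha2 => by
      have h6 := h2 D (s * s) a (hs.mul hs).pos ha1 ha2
      rw [NN_sq D s a hs.pos.ne']
      have h7 : (s * s).primeFactors.erase 2 = (s * s).primeFactors := by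
        apply Finset.erase_eq_of_notMem
        intro h
        exact (Nat.not_even_iff_odd.2 (hs.mul hs)) (even_iff_two_dvd.2 (Nat.dvd_of_mem_primeFactors h))
      rw [h7] at h6
      exact h6) X hX hs
    refine h5.trans ?_
    nlinarith
  · have h5 := ns_case hC3 hε (fun D n a hn hns ha => h3 D n a hn hns ha) b X v n hX hn hsq
    have h6 : mm X (2 ^ v * n) = 0 := by
      unfold mm
      rw [if_neg fun h => hsq ((isSquare_iff v n hn).1 h).2, mul_zero]
    rw [h6, sub_zero]
    refine h5.trans ?_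
    have : 0 ≤ (20 + 16 * C2 * C4) * (Real.sqrt X * ((2 ^ v * n : ℕ) : ℝ) ^ (1 / 4 + ε)) := by
      positivity
    nlinarith

end

end Pool.Agent.Y832.QF
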