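import Pool.Agent.Y752.QF.Stm
import Pool.Agent.TH521.GS.Rep

set_option autoImplicit false

/-! Project QF: replacement of the factors one at a time, sums over a finite family
(after `Pool.Agent.TH521.GS.Rep`). -/

namespace Pool.Agent.Y832.QF

open MeasureTheory Set
open scoped ENNReal
open Pool.Agent.TH612.GS (mP)
open Pool.Agent.TH521.GS (mor lint_prod lint1 pt bb bb_succ bb_nonneg bb_le)
open Pool.Agent.Y752.QF

noncomputable section

lemma ton_sum {X : Type} [MeasurableSpace X] [TopologicalSpace X] [OpensMeasurableSpace X]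
    (ν : Measure X) (F : Finset DC) {w : DC → ℝ} (hw0 : ∀ p, 0 ≤ w p) {G : DC → X → ℝ}
    (hG : ∀ p, Continuous (G p)) (hG0 : ∀ p x, 0 ≤ G p x) {C : ℝ} (hC : 0 ≤ C)
    (h : ∀ p ∈ F, ∫⁻ x, ENNReal.ofReal (G p x) ∂ν ≤ ENNReal.ofReal C) :
    ∫⁻ x, ENNReal.ofReal (∑ p ∈ F, w p * G p x) ∂ν ≤ ENNReal.ofReal (C * ∑ p ∈ F, w p) := by
  have e1 : ∀ x, ENNReal.ofReal (∑ p ∈ F, w p * G p x) =
      ∑ p ∈ F, ENNReal.ofReal (w p) * ENNReal.ofReal (G p x) := by
    intro x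
    rw [ENNReal.ofReal_sum_of_nonneg fun p _ => mul_nonneg (hw0 p) (hG0 p x)]
    exact Finset.sum_congr rfl fun p _ => ENNReal.ofReal_mul (hw0 p)
  simp_rw [e1]
  rw [lintegral_finset_sum F fun p _ => (mor (hG p)).const_mul _]
  have e2 : ENNReal.ofReal (C * ∑ p ∈ F, w p) = ∑ p ∈ F, ENNReal.ofReal (w p) * ENNReal.ofReal C := by
    rw [Finset.mul_sum, ENNReal.ofReal_sum_of_nonneg fun p _ => mul_nonneg hC (hw0 p)]
    refine Finset.sum_congr rfl fun p _ => ?_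
    rw [mul_comm, ENNReal.ofReal_mul (hw0 p)]
  rw [e2]
  refine Finset.sum_le_sum fun p hp => ?_
  rw [lintegral_const_mul _ (mor (hG p))]
  exact mul_le_mul' le_rfl (h p hp)

theorem rep_fin {T K V : ℝ} (hT : 0 ≤ T) (hK : 0 ≤ K) (hV : 0 ≤ V) (F : Finset DC)
    (f g : DC → ℝ → ℂ) (hf : ∀ p, Continuous (f p)) (hg : ∀ p, Continuous (g p))
    (hop : ∀ w : DC → ℂ, ∫ u in (0:ℝ)..T, ‖∑ p ∈ F, w p * (f p u - g p u)‖ ^ 2 ≤
      K * ∑ p ∈ F, ‖w p‖ ^ 2)
    (hVf : ∀ p ∈ F, ∫ u in (0:ℝ)..T, ‖f p u‖ ^ 2 ≤ V)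
    (hVg : ∀ p ∈ F, ∫ u in (0:ℝ)..T, ‖g p u‖ ^ 2 ≤ V) :
    ∀ (n : ℕ) (c : DC → ℂ),
    ∫⁻ γ, ENNReal.ofReal (‖∑ p ∈ F, c p * (∏ j, f p (γ j) - ∏ j, g p (γ j))‖ ^ 2)
      ∂(mP (Fin n) T) ≤ ENNReal.ofReal (bb K V n * ∑ p ∈ F, ‖c p‖ ^ 2) := by
  intro n
  induction n with
  | zero =>
    intro c
    simp
  | succ n ih =>
    intro c
    have hcc : Continuous fun p : ℝ × (Fin n → ℝ) => (Fin.cons p.1 p.2 : Fin (n + 1) → ℝ) :=
      Continuous.finCons (A := fun _ => ℝ) continuous_fst continuous_snd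
    -- the two parts
    obtain ⟨D1, hD1⟩ : ∃ D1 : ℝ × (Fin n → ℝ) → ℂ, D1 = fun q => ∑ p ∈ F,
      (c p * ∏ i : Fin n, f p (q.2 i)) * (f p q.1 - g p q.1) := ⟨_, rfl⟩
    obtain ⟨D2, hD2⟩ : ∃ D2 : ℝ × (Fin n → ℝ) → ℂ, D2 = fun q => ∑ p ∈ F,
      (c p * g p q.1) * (∏ i : Fin n, f p (q.2 i) - ∏ i : Fin n, g p (q.2 i)) := ⟨_, rfl⟩
    have hc1 : Continuous D1 := by
      rw [hD1]
      fun_prop
    have hc2 : Continuous D2 := by
      rw [hD2]
      fun_prop
    have hcD : Continuous fun γ : Fin (n + 1) → ℝ => ‖∑ p ∈ F, c p *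
        (∏ i, f p (γ i) - ∏ i, g p (γ i))‖ ^ 2 := by
      fun_prop
    have hsplit : ∀ q : ℝ × (Fin n → ℝ), (∑ p ∈ F, c p *
        (∏ i, f p ((Fin.cons q.1 q.2 : Fin (n + 1) → ℝ) i) -
          ∏ i, g p ((Fin.cons q.1 q.2 : Fin (n + 1) → ℝ) i))) = D1 q + D2 q := by
      intro q
      rw [hD1, hD2]
      dsimp only
      rw [← Finset.sum_add_distrib]
      refine Finset.sum_congr rfl fun p _ => ?_
      rw [Fin.prod_univ_succ, Fin.prod_univ_succ]
      simp only [Fin.cons_zero, Fin.cons_succ]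
      ring
    have hle : ∀ q : ℝ × (Fin n → ℝ), ENNReal.ofReal (‖∑ p ∈ F, c p *
        (∏ i, f p ((Fin.cons q.1 q.2 : Fin (n + 1) → ℝ) i) -
          ∏ i, g p ((Fin.cons q.1 q.2 : Fin (n + 1) → ℝ) i))‖ ^ 2) ≤
        ENNReal.ofReal 2 * ENNReal.ofReal (‖D1 q‖ ^ 2) +
          ENNReal.ofReal 2 * ENNReal.ofReal (‖D2 q‖ ^ 2) := by
      intro q
      rw [hsplit, ← ENNReal.ofReal_mul (by norm_num), ← ENNReal.ofReal_mul (by norm_num),
        ← ENNReal.ofReal_add (by positivity) (by positivity)]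
      apply ENNReal.ofReal_le_ofReal
      have h1 := norm_add_le (D1 q) (D2 q)
      have h2 : ‖D1 q + D2 q‖ ^ 2 ≤ (‖D1 q‖ + ‖D2 q‖) ^ 2 :=
        pow_le_pow_left₀ (norm_nonneg _) h1 2
      nlinarith [sq_nonneg (‖D1 q‖ - ‖D2 q‖)]
    have hm1 : Measurable fun p : ℝ × (Fin n → ℝ) => ENNReal.ofReal (‖D1 p‖ ^ 2) :=
      mor (hc1.norm.pow 2)
    have hm2 : Measurable fun p : ℝ × (Fin n → ℝ) => ENNReal.ofReal (‖D2 p‖ ^ 2) :=
      mor (hc2.norm.pow 2)
    -- part 1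
    have hp1 : ∫⁻ p, ENNReal.ofReal (‖D1 p‖ ^ 2)
        ∂((volume.restrict (Icc 0 T)).prod (mP (Fin n) T)) ≤
        ENNReal.ofReal (K * V ^ n * ∑ p ∈ F, ‖c p‖ ^ 2) := by
      rw [lintegral_prod_symm _ hm1.aemeasurable]
      have e1 : ∀ γ : Fin n → ℝ, ∫⁻ y, ENNReal.ofReal (‖D1 (y, γ)‖ ^ 2)
          ∂(volume.restrict (Icc 0 T)) ≤ ENNReal.ofReal K *
            ENNReal.ofReal (∑ p ∈ F, ‖c p‖ ^ 2 * ∏ i : Fin n, ‖f p (γ i)‖ ^ 2) := by
        intro γ
        have hcy : Continuous fun y : ℝ => ‖D1 (y, γ)‖ ^ 2 :=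
          (hc1.comp (by fun_prop : Continuous fun y : ℝ => (y, γ))).norm.pow 2
        rw [lint1 hT hcy fun y => sq_nonneg _, ← ENNReal.ofReal_mul hK]
        apply ENNReal.ofReal_le_ofReal
        have h1 := hop (fun p => c p * ∏ i : Fin n, f p (γ i))
        rw [hD1]
        refine h1.trans (le_of_eq ?_)
        congr 1
        refine Finset.sum_congr rfl fun p _ => ?_
        rw [norm_mul, norm_prod, mul_pow, Finset.prod_pow]
      refine (lintegral_mono e1).trans ?_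
      rw [lintegral_const_mul']
      · rw [mul_assoc, ENNReal.ofReal_mul hK]
        refine mul_le_mul' le_rfl ?_
        refine ton_sum (mP (Fin n) T) F (w := fun p => ‖c p‖ ^ 2) (fun p => sq_nonneg _)
          (G := fun p γ => ∏ i : Fin n, ‖f p (γ i)‖ ^ 2) (fun p => by
            have := hf p
            fun_prop)
          (fun p γ => Finset.prod_nonneg fun i _ => sq_nonneg _) (by positivity) fun p hp => ?_
        have h1 := pt hT hV 0 n (fun _ => f p) (fun _ => hf p) (fun _ => by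
          simpa using hVf p hp)
        simpa using h1
      · exact ENNReal.ofReal_ne_top
    -- part 2
    have hp2 : ∫⁻ p, ENNReal.ofReal (‖D2 p‖ ^ 2)
        ∂((volume.restrict (Icc 0 T)).prod (mP (Fin n) T)) ≤
        ENNReal.ofReal (bb K V n * (V * ∑ p ∈ F, ‖c p‖ ^ 2)) := by
      rw [lintegral_prod _ hm2.aemeasurable]
      have hb := bb_nonneg hK hV n
      have e1 : ∀ y : ℝ, ∫⁻ γ, ENNReal.ofReal (‖D2 (y, γ)‖ ^ 2) ∂(mP (Fin n) T) ≤
          ENNReal.ofReal (bb K V n) *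
            ENNReal.ofReal (∑ p ∈ F, ‖c p‖ ^ 2 * ‖g p y‖ ^ 2) := by
        intro y
        have h1 := ih (fun p => c p * g p y)
        rw [hD2]
        refine h1.trans (le_of_eq ?_)
        rw [ENNReal.ofReal_mul hb]
        congr 2
        refine Finset.sum_congr rfl fun p _ => ?_
        rw [norm_mul, mul_pow]
      refine (lintegral_mono e1).trans ?_
      rw [lintegral_const_mul']
      · rw [ENNReal.ofReal_mul hb]
        refine mul_le_mul' le_rfl ?_
        refine ton_sum (volume.restrict (Icc 0 T)) F (w := fun p => ‖c p‖ ^ 2)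
          (fun p => sq_nonneg _) (G := fun p y => ‖g p y‖ ^ 2) (fun p => by
            have := hg p
            fun_prop) (fun p y => sq_nonneg _) hV fun p hp => ?_
        rw [lint1 hT (by have := hg p; fun_prop) fun y => sq_nonneg _]
        exact ENNReal.ofReal_le_ofReal (hVg p hp)
      · exact ENNReal.ofReal_ne_top
    rw [lint_prod T _ (mor hcD)]
    refine (lintegral_mono hle).trans ?_
    rw [lintegral_add_left (hm1.const_mul _), lintegral_const_mul _ hm1,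
      lintegral_const_mul _ hm2]
    refine (add_le_add (mul_le_mul' le_rfl hp1) (mul_le_mul' le_rfl hp2)).trans ?_
    have hI : 0 ≤ ∑ p ∈ F, ‖c p‖ ^ 2 := Finset.sum_nonneg fun p _ => sq_nonneg _
    have hb := bb_nonneg hK hV n
    rw [← ENNReal.ofReal_mul (by norm_num), ← ENNReal.ofReal_mul (by norm_num),
      ← ENNReal.ofReal_add (by positivity) (by positivity), bb_succ]
    apply ENNReal.ofReal_le_ofReal
    apply le_of_eq
    ring

/-- REP -/
theorem REP : S_REP := by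
  intro T K V hT hK hV k F f g hf hg hop hVf hVg c
  refine (rep_fin hT hK hV F f g hf hg hop hVf hVg k c).trans (ENNReal.ofReal_le_ofReal ?_)
  exact mul_le_mul_of_nonneg_right (bb_le hK hV k) (Finset.sum_nonneg fun p _ => sq_nonneg _)

end

end Pool.Agent.Y832.QF
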